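import Pool.Agent.helper55.RI.Spec

/-!
Project ri (MP_2bd605_lc), statement Q1: falsification is decidable.
-/

set_option autoImplicit false

namespace Pool.Agent.RI

open Pool.Agent.helper62 Prog Function Pool.Agent.helper81.PL

theorem Q1_c2 {α : Type} [Primcodable α] (F : ℕ → W → W)
    (hF : Computable (fun p : ℕ × W => F p.1 p.2)) {u : α → ℕ} {d : α → W}
    (hu : Computable u) (hd : Computable d) : Computable (fun x => F (u x) (d x)) :=
  Computable.comp hF (hu.pair hd)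

theorem Q1_up1 {α : Type} [Primcodable α] {u : α → ℕ} (hu : Computable u) :
    Computable (fun x => (Nat.unpair (u x)).1) :=
  Computable.fst.comp (Computable.unpair.comp hu)

theorem Q1_up2 {α : Type} [Primcodable α] {u : α → ℕ} (hu : Computable u) :
    Computable (fun x => (Nat.unpair (u x)).2) :=
  Computable.snd.comp (Computable.unpair.comp hu)

theorem Q1_E (hX8 : X8_stmt) : Computable (fun p : ℕ × W => E p.1 p.2) := hX8

theorem Q1_gk {α : Type} [Primcodable α] (hX8 : X8_stmt) {u : α → ℕ} {d : α → W}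
    (hu : Computable u) (hd : Computable d) : Computable (fun x => gk (u x) (d x)) :=
  Q1_c2 E (Q1_E hX8) (u := fun x => (Nat.unpair (u x)).1) (Q1_up1 hu) hd

theorem Q1_mk {α : Type} [Primcodable α] (hX8 : X8_stmt) {u : α → ℕ} {d : α → W}
    (hu : Computable u) (hd : Computable d) : Computable (fun x => mk (u x) (d x)) :=
  Q1_c2 E (Q1_E hX8) (u := fun x => (Nat.unpair (u x)).2) (Q1_up2 hu) hd

theorem Q1_c1 {α β γ : Type} [Primcodable α] [Primcodable β] [Primcodable γ] (F : β → γ)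
    (hF : Computable F) {u : α → β} (hu : Computable u) : Computable (fun x => F (u x)) :=
  hF.comp hu

theorem Q1_main (hR3 : R3_stmt) (hR5 : R5_stmt) (g m : ℕ → W → W) (f : W → W)
    (hf : Computable f) (hg : ∀ {α : Type} [Primcodable α] {u : α → ℕ} {d : α → W},
      Computable u → Computable d → Computable (fun x => g (u x) (d x)))
    (hm : ∀ {α : Type} [Primcodable α] {u : α → ℕ} {d : α → W},
      Computable u → Computable d → Computable (fun x => m (u x) (d x)))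
    (B : ℕ → ℕ) (hB : Computable B) :
    ComputablePred (fun p : ℕ × ℕ × ℕ => ∃ n < p.2.2, ¬ m p.2.1 (g p.2.1 (dw n)) = dw n ∨
      ∀ j < B (2 ^ (g p.2.1 (dw n)).length), ¬ f (pre p.1 (dw j)) = g p.2.1 (dw n)) := by
  obtain ⟨c1, c2, c3, c4, c5, -⟩ := hR5
  obtain ⟨r1, r2, r3, r4, r5⟩ := hR3
  have hk : Computable (fun x : (ℕ × ℕ × ℕ) × ℕ => x.1.2.1) :=
    Computable.fst.comp (Computable.snd.comp Computable.fst)
  have hb : Computable (fun x : (ℕ × ℕ × ℕ) × ℕ => x.1.1) := Computable.fst.comp Computable.fst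
  have hd : Computable (fun x : (ℕ × ℕ × ℕ) × ℕ => dw x.2) := c5.comp Computable.snd
  have hu : Computable (fun x : (ℕ × ℕ × ℕ) × ℕ => g x.1.2.1 (dw x.2)) := hg hk hd
  have hmm : Computable (fun x : (ℕ × ℕ × ℕ) × ℕ => m x.1.2.1 (g x.1.2.1 (dw x.2))) := hm hk hu
  have q1 : ComputablePred (fun x : (ℕ × ℕ × ℕ) × ℕ => m x.1.2.1 (g x.1.2.1 (dw x.2)) = dw x.2) :=
    r4 _ _ _ _ hmm hd
  have p1 : ComputablePred (fun x : (ℕ × ℕ × ℕ) × ℕ => ¬ m x.1.2.1 (g x.1.2.1 (dw x.2)) = dw x.2) :=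
    (r1 _ _ _ q1 q1).2.2
  have hfy : Computable (fun x : ((ℕ × ℕ × ℕ) × ℕ) × ℕ => f (pre x.1.1.1 (dw x.2))) := by
    have e1 : Computable (fun x : ((ℕ × ℕ × ℕ) × ℕ) × ℕ => x.1.1.1) := hb.comp Computable.fst
    have e2 : Computable (fun x : ((ℕ × ℕ × ℕ) × ℕ) × ℕ => dw x.2) := c5.comp Computable.snd
    exact Q1_c1 f hf (Q1_c2 pre c1 e1 e2)
  have q2 : ComputablePred (fun x : ((ℕ × ℕ × ℕ) × ℕ) × ℕ =>
      f (pre x.1.1.1 (dw x.2)) = g x.1.1.2.1 (dw x.1.2)) :=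
    r4 _ _ _ _ hfy (hu.comp Computable.fst)
  have p2 : ComputablePred (fun x : ((ℕ × ℕ × ℕ) × ℕ) × ℕ =>
      ¬ f (pre x.1.1.1 (dw x.2)) = g x.1.1.2.1 (dw x.1.2)) := (r1 _ _ _ q2 q2).2.2
  have hbd : Computable (fun x : (ℕ × ℕ × ℕ) × ℕ => B (2 ^ (g x.1.2.1 (dw x.2)).length)) :=
    Q1_c1 B hB (Q1_c1 (fun n : ℕ => 2 ^ n) c3 (Q1_c1 (fun x : W => x.length) c2 hu))
  have p3 := (r3 _ (fun (x : (ℕ × ℕ × ℕ) × ℕ) (j : ℕ) =>
    ¬ f (pre x.1.1 (dw j)) = g x.1.2.1 (dw x.2)) _ p2 hbd).1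
  have p4 := (r1 _ _ _ p1 p3).2.1
  exact (r3 _ (fun (p : ℕ × ℕ × ℕ) (n : ℕ) => ¬ m p.2.1 (g p.2.1 (dw n)) = dw n ∨
    ∀ j < B (2 ^ (g p.2.1 (dw n)).length), ¬ f (pre p.1 (dw j)) = g p.2.1 (dw n)) _ p4
    (Computable.snd.comp Computable.snd)).2

theorem Q1 (hR3 : R3_stmt) (hR5 : R5_stmt) (hX8 : X8_stmt) : Q1_stmt := by
  intro f hf hlen
  obtain ⟨B, hB, hB'⟩ := hR5.2.2.2.2.2.2
  have c6 := hR5.2.2.2.2.2.1
  have p5 := Q1_main hR3 hR5 gk mk f hf (Q1_gk hX8) (Q1_mk hX8) B hB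
  have key : (fun p : ℕ × ℕ × ℕ => Fal f p.1 p.2.1 p.2.2) = fun p : ℕ × ℕ × ℕ =>
      ∃ n < p.2.2, ¬ mk p.2.1 (gk p.2.1 (dw n)) = dw n ∨
        ∀ m < B (2 ^ (gk p.2.1 (dw n)).length), ¬ f (pre p.1 (dw m)) = gk p.2.1 (dw n) := by
    funext p
    refine propext ⟨?_, ?_⟩
    · rintro ⟨n, hn, h⟩
      exact ⟨n, hn, h.imp id fun h m _ => h _⟩
    · rintro ⟨n, hn, h⟩
      refine ⟨n, hn, h.imp id fun h y hy => ?_⟩
      have e1 := hlen (pre p.1 y)
      rw [hy] at e1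
      have e2 : (pre p.1 y).length = p.1 + y.length + 1 := by
        unfold pre
        simp [Nat.add_assoc]
      refine h (enc y) (hB' y _ (by omega)) ?_
      rw [c6]
      exact hy
  rw [key]
  exact p5

end Pool.Agent.RI
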